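import Pool.Agent.Full.Ket.OneArm
import Pool.Agent.Full.Corner.Dyadic

/-!
# The walker and the strands of a planar region

The walker state `(i, j, d)` is the half edge `((i, j), opposite side of d)`; one step of the walker is
`glue ∘ mate`.  Uncovered boundary points of the half box as an event for the strands of the region.
-/

set_option autoImplicit false

namespace Full.Ket

open Finset Full.Walk Full.Mom Function
open Full.Corner (conf mem_conf)

/-- headings of the walker as directions -/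
def toD : Full.Walk.Dir → Full.Dir
  | .N => .N
  | .E => .E
  | .S => .S
  | .W => .W

/-- the half edge through which the walker enters the tile -/
def half (t : St) : Half (ℤ × ℤ) := ((t.i, t.j), (toD t.d).opp)

lemma mt_toD (b : Bool) (d : Full.Walk.Dir) : Full.Dir.mt b (toD d).opp = toD (turn b d) := by
  cases b <;> cases d <;> rfl

lemma mate_half {ω : Finset (ℤ × ℤ)} {b : ℤ → ℤ → Bool} {t : St}
    (hb : b t.i t.j = decide ((t.i, t.j) ∈ ω)) :
    mate ω (half t) = ((t.i, t.j), toD (turn (b t.i t.j) t.d)) := by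
  unfold mate half
  rw [← hb, mt_toD]

lemma vec_toD (i j : ℤ) (d : Full.Walk.Dir) : (i, j) + (toD d).vec = (i + d.dx, j + d.dy) := by
  cases d <;> simp [toD, Full.Dir.vec, Full.Walk.Dir.dx, Full.Walk.Dir.dy]

section path
variable {ω A : Finset (ℤ × ℤ)} {b : ℤ → ℤ → Bool}

lemma glue_mate_half {t : St} (hb : b t.i t.j = decide ((t.i, t.j) ∈ ω))
    (h1 : (t.i, t.j) ∈ A) (h2 : ((step b t).i, (step b t).j) ∈ A) :
    plane.glue A (mate ω (half t)) = half (step b t) := by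
  rw [mate_half hb, plane_glue, vec_toD]
  rw [if_pos ⟨h1, h2⟩]
  rfl

/-- a walk inside the region is a piece of a strand -/
lemma conn_pos {s : St} (hb : ∀ t ∈ A, b t.1 t.2 = decide (t ∈ ω)) :
    ∀ {n : ℕ}, (∀ k ≤ n, ((pos b s k).i, (pos b s k).j) ∈ A) →
      Conn (mate ω) (plane.glue A) (half s) (half (pos b s n)) := by
  intro n
  induction n with
  | zero => intro _; exact Conn.refl _
  | succ n ih =>
    intro h
    refine (ih fun k hk => h k (by omega)).trans ?_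
    have h1 := h n (by omega)
    have h2 := h (n + 1) le_rfl
    rw [pos_succ] at h2 ⊢
    rw [← glue_mate_half (hb _ h1) h1 h2]
    exact (Conn.m_step _).trans (Conn.g_step _)

/-- a walk which leaves the region through the floor: the two floor sides are joined by a strand -/
theorem conn_exit {x x' r : ℤ} {n : ℕ} (hb : ∀ t ∈ A, b t.1 t.2 = decide (t ∈ ω))
    (hn : ∀ k < n, ((pos b ⟨x, r, .N⟩ k).i, (pos b ⟨x, r, .N⟩ k).j) ∈ A)
    (he : pos b ⟨x, r, .N⟩ n = ⟨x', r - 1, .S⟩) :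
    Conn (mate ω) (plane.glue A) ((x, r), .S) ((x', r), .S) := by
  obtain _ | n := n
  · rw [pos_zero] at he
    injection he with _ _ h
    exact absurd h (by decide)
  have h1 := conn_pos (b := b) (s := ⟨x, r, .N⟩) hb (n := n) fun k hk => hn k (by omega)
  have h2 := hb _ (hn n (by omega))
  simp only at h2
  have h3 := mate_half h2
  rw [pos_succ] at he
  have e1 : (pos b ⟨x, r, .N⟩ n).i + (turn (b (pos b ⟨x, r, .N⟩ n).i (pos b ⟨x, r, .N⟩ n).j)
      (pos b ⟨x, r, .N⟩ n).d).dx = x' := congrArg St.i he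
  have e2 : (pos b ⟨x, r, .N⟩ n).j + (turn (b (pos b ⟨x, r, .N⟩ n).i (pos b ⟨x, r, .N⟩ n).j)
      (pos b ⟨x, r, .N⟩ n).d).dy = r - 1 := congrArg St.j he
  have e3 : turn (b (pos b ⟨x, r, .N⟩ n).i (pos b ⟨x, r, .N⟩ n).j) (pos b ⟨x, r, .N⟩ n).d = .S :=
    congrArg St.d he
  rw [e3] at e1 e2 h3
  simp only [Full.Walk.Dir.dx, Full.Walk.Dir.dy] at e1 e2
  have e4 : (pos b ⟨x, r, .N⟩ n).i = x' := by omega
  have e5 : (pos b ⟨x, r, .N⟩ n).j = r := by omega
  rw [e4, e5] at h3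
  have h4 : mate ω (half (pos b ⟨x, r, .N⟩ n)) = ((x', r), .S) := h3
  rw [← h4]
  exact h1.trans (Conn.m_step _)

end path

/-! ### the events -/

/-- the half box of radius `m` above the floor corner `(c, s)` -/
noncomputable def hbox (c s : ℤ) (m : ℕ) : Finset (ℤ × ℤ) := winF (c - m) (c + m) s m

/-- the half box of radius `m` above the floor side `y` -/
noncomputable def hboxS (y s : ℤ) (m : ℕ) : Finset (ℤ × ℤ) := winF (y - m) (y + 1 + m) s m

/-- some strand of the half box goes over the floor corner `(c, s)` -/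
def CovG (c s : ℤ) (m : ℕ) (ω : Finset (ℤ × ℤ)) : Prop :=
  ∃ x x' : ℤ, c - m ≤ x ∧ x < c ∧ c ≤ x' ∧ x' < c + m ∧
    other (mate ω) (plane.glue (hbox c s m)) ((x, s), .S) = ((x', s), .S)

/-- some strand of the half box goes strictly over the floor side `y` -/
def CovGS (y s : ℤ) (m : ℕ) (ω : Finset (ℤ × ℤ)) : Prop :=
  ∃ x x' : ℤ, y - m ≤ x ∧ x < y ∧ y < x' ∧ x' ≤ y + m ∧
    other (mate ω) (plane.glue (hboxS y s m)) ((x, s), .S) = ((x', s), .S)

lemma floor_fix {a c s x : ℤ} {h : ℕ} : plane.glue (winF a c s h) ((x, s), .S) = ((x, s), .S) := by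
  rw [plane_glue, if_neg]
  rintro ⟨-, h2⟩
  rw [mem_winF] at h2
  simp only [Full.Dir.vec, Prod.mk_add_mk] at h2
  omega

lemma covG_of_cov {c s : ℤ} {m : ℕ} {ω : Finset (ℤ × ℤ)} {b : ℤ → ℤ → Bool}
    (hb : ∀ t ∈ hbox c s m, b t.1 t.2 = decide (t ∈ ω)) (h : Cov b c s m) : CovG c s m ω := by
  obtain ⟨x, x', n, h1, h2, h3, h4, h5, h6⟩ := h
  refine ⟨x, x', h1, h2, h3, h4, ?_⟩
  have hG := plane.glu (hbox c s m)
  rw [(hG.two ω).other_eq_iff floor_fix (hG.periodic ω _) floor_fix]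
  refine ⟨conn_exit hb (fun k hk => ?_) h6, ?_⟩
  · exact mem_winF.2 (h5 k hk)
  · intro he
    have : x' = x := congrArg (fun z : Half (ℤ × ℤ) => z.1.1) he
    omega

lemma covGS_of_covS {y s : ℤ} {m : ℕ} {ω : Finset (ℤ × ℤ)} {b : ℤ → ℤ → Bool}
    (hb : ∀ t ∈ hboxS y s m, b t.1 t.2 = decide (t ∈ ω)) (h : CovS b y s m) : CovGS y s m ω := by
  obtain ⟨x, x', n, h1, h2, h3, h4, h5, h6⟩ := h
  refine ⟨x, x', h1, h2, h3, h4, ?_⟩
  have hG := plane.glu (hboxS y s m)
  rw [(hG.two ω).other_eq_iff floor_fix (hG.periodic ω _) floor_fix]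
  refine ⟨conn_exit hb (fun k hk => ?_) h6, ?_⟩
  · exact mem_winF.2 (h5 k hk)
  · intro he
    have : x' = x := congrArg (fun z : Half (ℤ × ℤ) => z.1.1) he
    omega

lemma bits_conf {ι : Type*} {τ : ℤ × ℤ → ι} {A : Finset (ℤ × ℤ)} {ω : ι → Bool} {t : ℤ × ℤ}
    (ht : t ∈ A) : (fun i j : ℤ => ω (τ (i, j))) t.1 t.2 = decide (t ∈ conf τ A ω) := by
  show ω (τ t) = _
  cases h : ω (τ t)
  · rw [eq_comm, decide_eq_false_iff_not, mem_conf]
    rintro ⟨-, h2⟩
    rw [h] at h2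
    exact Bool.noConfusion h2
  · rw [eq_comm, decide_eq_true_iff, mem_conf]
    exact ⟨ht, h⟩

universe u

/-- **uncovered marks**: the probability that no strand of the half box of radius `m` goes over the
floor corner, resp. strictly over the floor side, is at most `C m ^ (-1/3)` -/
theorem exists_covG_bound : ∃ C : ℝ, 1 ≤ C ∧
    (∀ (ι : Type u) [Fintype ι] [DecidableEq ι] (τ : ℤ × ℤ → ι) (c s : ℤ) (m : ℕ), 1 ≤ m →
      Set.InjOn τ (hbox c s m) →
      pr (fun ω : ι → Bool => ¬ CovG c s m (conf τ (hbox c s m) ω)) ≤ C * (m : ℝ) ^ (-(1 / 3) : ℝ)) ∧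
    (∀ (ι : Type u) [Fintype ι] [DecidableEq ι] (τ : ℤ × ℤ → ι) (y s : ℤ) (m : ℕ), 1 ≤ m →
      Set.InjOn τ (hboxS y s m) →
      pr (fun ω : ι → Bool => ¬ CovGS y s m (conf τ (hboxS y s m) ω)) ≤
        C * (m : ℝ) ^ (-(1 / 3) : ℝ)) := by
  obtain ⟨C1, h1, h2⟩ := exists_cov_bound.{u}
  obtain ⟨C2, h3, h4⟩ := exists_covS_bound.{u}
  refine ⟨max C1 C2, le_max_of_le_left h1, ?_, ?_⟩
  · intro ι _ _ τ c s m hm hτ
    have hmpos : (0 : ℝ) ≤ (m : ℝ) ^ (-(1 / 3) : ℝ) := by positivity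
    refine le_trans ?_ (mul_le_mul_of_nonneg_right (le_max_left C1 C2) hmpos)
    refine le_trans (pr_mono fun ω (hω : ¬ CovG c s m (conf τ (hbox c s m) ω)) => ?_)
      (h2 ι (fun i j => τ (i, j)) c s m hm fun t ht t' ht' he => hτ ht ht' he)
    exact fun hc => hω (covG_of_cov (fun t ht => bits_conf ht) hc)
  · intro ι _ _ τ y s m hm hτ
    have hmpos : (0 : ℝ) ≤ (m : ℝ) ^ (-(1 / 3) : ℝ) := by positivity
    refine le_trans ?_ (mul_le_mul_of_nonneg_right (le_max_right C1 C2) hmpos)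
    refine le_trans (pr_mono fun ω (hω : ¬ CovGS y s m (conf τ (hboxS y s m) ω)) => ?_)
      (h4 ι (fun i j => τ (i, j)) y s m hm fun t ht t' ht' he => hτ ht ht' he)
    exact fun hc => hω (covGS_of_covS (fun t ht => bits_conf ht) hc)

end Full.Ket
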