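import Pool.Agent.Full.Walk.Many

/-!
# Covered floor points

A floor point `(c, s)` (the corner between the floor sides `c - 1` and `c`) is covered in the half
box of radius `m` if some strand enters the half box at a floor side on the left of the point and
leaves it through a floor side on the right of the point.  If the point is not covered, then its
cluster reaches the left side, the right side or the top of the half box: this is a pigeon hole
argument on the floor points of the cluster, no planarity is needed.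
-/

set_option autoImplicit false
set_option linter.unnecessarySeqFocus false

namespace Full.Ket

open Finset Full.Walk

variable {b : ℤ → ℤ → Bool}

/-- in the half box of radius `m` around the floor point `(c, s)` some strand goes over it -/
def Cov (b : ℤ → ℤ → Bool) (c s : ℤ) (m : ℕ) : Prop :=
  ∃ (x x' : ℤ) (n : ℕ), c - m ≤ x ∧ x < c ∧ c ≤ x' ∧ x' < c + m ∧
    (∀ k < n, win (c - m) (c + m) s m (pos b ⟨x, s, .N⟩ k).i (pos b ⟨x, s, .N⟩ k).j) ∧
    pos b ⟨x, s, .N⟩ n = ⟨x', s - 1, .S⟩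

/-- a left turn moves the right corner along the connected diagonal -/
lemma rc_step_left {t : St} (h : ¬ rturn (b t.i t.j) t.d) {ε : ℤ} (hc : col ε (rc t)) :
    opn ε b (t.i, t.j) ∧ ((rc t = (dg ε (t.i, t.j)).1 ∧ rc (step b t) = (dg ε (t.i, t.j)).2) ∨
      (rc t = (dg ε (t.i, t.j)).2 ∧ rc (step b t) = (dg ε (t.i, t.j)).1)) := by
  obtain ⟨i, j, d⟩ := t
  simp only at h ⊢
  unfold step
  simp only
  unfold col at hc
  have ho : opn ε b (i, j) := by
    unfold opn
    cases hv : b i j <;> cases d <;> rw [hv] at h <;> simp [rturn] at h <;>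
      simp only [rc] at hc <;> simp only [Bool.false_eq_true, false_iff, true_iff] <;> omega
  refine ⟨ho, ?_⟩
  unfold dg
  cases hv : b i j <;> cases d <;> rw [hv] at h <;> simp [rturn] at h <;>
    simp only [rc, turn, Dir.dx, Dir.dy] at hc ⊢
  · rw [if_neg (by omega)]
    left
    refine ⟨Prod.ext ?_ ?_, Prod.ext ?_ ?_⟩ <;> simp only <;> omega
  · rw [if_neg (by omega)]
    right
    refine ⟨Prod.ext ?_ ?_, Prod.ext ?_ ?_⟩ <;> simp only <;> omega
  · rw [if_pos (by omega)]
    left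
    refine ⟨Prod.ext ?_ ?_, Prod.ext ?_ ?_⟩ <;> simp only <;> omega
  · rw [if_pos (by omega)]
    right
    refine ⟨Prod.ext ?_ ?_, Prod.ext ?_ ?_⟩ <;> simp only <;> omega

lemma col_of_conn {ε : ℤ} {O : Finset (ℤ × ℤ)} {u v : ℤ × ℤ} (hu : col ε u) (h : Conn ε O u v) :
    col ε v := by
  induction h with
  | refl => exact hu
  | tail _ h2 _ =>
    obtain ⟨t, -, h3⟩ := h2
    unfold dg at h3
    unfold col
    rcases h3 with ⟨-, h3⟩ | ⟨-, h3⟩ <;> rw [h3] <;> split_ifs with h4 <;> simp only at h4 ⊢ <;> omega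

/-- if no strand goes over the floor point, then the cluster of the point leaves the half box -/
theorem far_of_not_cov {c s : ℤ} {m : ℕ} (hm : 1 ≤ m) (h : ¬ Cov b c s m) :
    ∃ v, Conn (c + s) (oset (c + s) b (winF (c - m) (c + m) s m)) (c, s) v ∧
      (v.1 = c - m ∨ v.1 = c + m ∨ v.2 = s + m) := by
  classical
  by_contra hfar
  have hfar' : ∀ v, Conn (c + s) (oset (c + s) b (winF (c - m) (c + m) s m)) (c, s) v →
      ¬ (v.1 = c - m ∨ v.1 = c + m ∨ v.2 = s + m) := fun v h1 h2 => hfar ⟨v, h1, h2⟩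
  clear hfar
  set O := oset (c + s) b (winF (c - m) (c + m) s m) with hO
  set C : ℤ × ℤ → Prop := fun v => Conn (c + s) O (c, s) v with hC
  have hcol0 : col (c + s) (c, s) := by unfold col; simp
  have hcol : ∀ v, C v → col (c + s) v := fun v hv => col_of_conn hcol0 hv
  have hin : ∀ v, C v → c - m < v.1 ∧ v.1 < c + m ∧ s ≤ v.2 ∧ v.2 < s + m := by
    intro v hv
    have h1 := hfar' v hv
    have h2 : c - m ≤ v.1 ∧ v.1 ≤ c + m ∧ s ≤ v.2 ∧ v.2 ≤ s + m := by
      cases hv with
      | refl => simp only; omega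
      | tail _ h3 =>
        obtain ⟨t, ht, h3⟩ := h3
        rw [hO, mem_oset, mem_winF] at ht
        obtain ⟨⟨g1, g2, g3, g4⟩, -⟩ := ht
        unfold dg at h3
        rcases h3 with ⟨-, h3⟩ | ⟨-, h3⟩ <;> rw [h3] <;> split_ifs <;> simp only <;> omega
    omega
  have hwin : ∀ t : St, C (rc t) → s ≤ t.j → win (c - m) (c + m) s m t.i t.j := by
    intro t ht hj
    have h1 := hin _ ht
    unfold win
    obtain ⟨i, j, d⟩ := t
    cases d <;> simp only [rc] at h1 hj ⊢ <;> omega
  have hstep : ∀ t : St, C (rc t) → s ≤ t.j → C (rc (step b t)) := by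
    intro t ht hj
    by_cases hr : rturn (b t.i t.j) t.d
    · rw [rc_step hr]; exact ht
    · obtain ⟨h1, h2⟩ := rc_step_left hr (hcol _ ht)
      refine Relation.ReflTransGen.tail ht ⟨(t.i, t.j), ?_, h2⟩
      rw [hO, mem_oset, mem_winF]
      exact ⟨hwin t ht hj, h1⟩
  have hpos : ∀ (t : St), C (rc t) → ∀ n : ℕ, (∀ k < n, s ≤ (pos b t k).j) → C (rc (pos b t n)) := by
    intro t ht n
    induction n with
    | zero => intro _; exact ht
    | succ n ih =>
      intro hk
      rw [pos_succ]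
      exact hstep _ (ih fun k hk' => hk k (by omega)) (hk n (by omega))
  -- every strand of the cluster which starts on the floor comes back to the floor
  have hexit : ∀ v : ℤ, C (v, s) → ∃ (x' : ℤ) (n : ℕ),
      (∀ k < n, s ≤ (pos b ⟨v - 1, s, .N⟩ k).j) ∧ pos b ⟨v - 1, s, .N⟩ n = ⟨x', s - 1, .S⟩ ∧
        C (x', s) := by
    intro v hv
    have hrc : C (rc ⟨v - 1, s, .N⟩) := by
      have e : rc ⟨v - 1, s, .N⟩ = (v, s) := by simp [rc]
      rw [e]; exact hv
    have hex : ∃ n, (pos b ⟨v - 1, s, .N⟩ n).j < s := by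
      by_contra hcon
      have hall : ∀ n, s ≤ (pos b ⟨v - 1, s, .N⟩ n).j := fun n => by
        by_contra h1
        exact hcon ⟨n, by omega⟩
      have hCn : ∀ n, C (rc (pos b ⟨v - 1, s, .N⟩ n)) := fun n => hpos _ hrc n fun k _ => hall k
      let T : Finset (ℤ × ℤ × ℤ × ℤ) := Finset.Ico (c - m) (c + m) ×ˢ Finset.Ico s (s + m) ×ˢ
        Finset.Icc (-1) 1 ×ˢ Finset.Icc (-1) 1
      let f : ℕ → ℤ × ℤ × ℤ × ℤ := fun n => ((pos b ⟨v - 1, s, .N⟩ n).i, (pos b ⟨v - 1, s, .N⟩ n).j,
        (pos b ⟨v - 1, s, .N⟩ n).d.dx, (pos b ⟨v - 1, s, .N⟩ n).d.dy)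
      have hf : ∀ n ∈ range (T.card + 1), f n ∈ T := by
        intro n _
        have h1 := hwin _ (hCn n) (hall n)
        unfold win at h1
        simp only [T, f, mem_product, mem_Ico, mem_Icc]
        refine ⟨⟨h1.1, h1.2.1⟩, ⟨h1.2.2.1, h1.2.2.2⟩, ?_, ?_⟩
        · cases (pos b ⟨v - 1, s, .N⟩ n).d <;> simp [Dir.dx]
        · cases (pos b ⟨v - 1, s, .N⟩ n).d <;> simp [Dir.dy]
      obtain ⟨x, -, y, -, hxy, hfe⟩ := Finset.exists_ne_map_eq_of_card_lt_of_maps_to
        (s := range (T.card + 1)) (t := T) (by rw [card_range]; omega) hf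
      have heq : ∀ x y : ℕ, x < y → f x = f y → False := by
        intro x y hlt he
        have h1 : pos b ⟨v - 1, s, .N⟩ x = pos b ⟨v - 1, s, .N⟩ y := by
          simp only [f, Prod.mk.injEq] at he
          obtain ⟨e1, e2, e3, e4⟩ := he
          ext
          · exact e1
          · exact e2
          · revert e3 e4
            generalize (pos b ⟨v - 1, s, .N⟩ x).d = d1
            generalize (pos b ⟨v - 1, s, .N⟩ y).d = d2
            cases d1 <;> cases d2 <;> simp [Dir.dx, Dir.dy]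
        obtain ⟨k, rfl⟩ : ∃ k, y = k + 1 + x := ⟨y - x - 1, by omega⟩
        rw [pos_add] at h1
        have h2 : (⟨v - 1, s, .N⟩ : St) = pos b ⟨v - 1, s, .N⟩ (k + 1) := pos_inj b h1
        have h3 : pos b ⟨v - 1, s, .N⟩ k = back b ⟨v - 1, s, .N⟩ := by
          rw [← back_pos_succ, ← h2]
        have h4 := hall k
        rw [h3] at h4
        simp [back, Dir.dy] at h4
      rcases lt_or_gt_of_ne hxy with hlt | hlt
      · exact heq x y hlt hfe
      · exact heq y x hlt hfe.symm
    have h1 := Nat.find_spec hex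
    have h2 : ∀ k < Nat.find hex, s ≤ (pos b ⟨v - 1, s, .N⟩ k).j := fun k hk => by
      have := Nat.find_min hex hk
      omega
    have h3 : Nat.find hex ≠ 0 := by
      intro h0
      rw [h0] at h1
      simp at h1
    obtain ⟨k, hk⟩ := Nat.exists_eq_succ_of_ne_zero h3
    have h4 := hpos _ hrc _ h2
    have h5 := step_j (b := b) (pos b ⟨v - 1, s, .N⟩ k)
    rw [← pos_succ, ← Nat.succ_eq_add_one, ← hk] at h5
    have h6 := h2 k (by omega)
    have h7 := dy_cases (pos b ⟨v - 1, s, .N⟩ (Nat.find hex)).d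
    have h8 : pos b ⟨v - 1, s, .N⟩ (Nat.find hex) =
        ⟨(pos b ⟨v - 1, s, .N⟩ (Nat.find hex)).i, s - 1, .S⟩ := by
      ext
      · rfl
      · show (pos b ⟨v - 1, s, .N⟩ (Nat.find hex)).j = s - 1
        omega
      · show (pos b ⟨v - 1, s, .N⟩ (Nat.find hex)).d = .S
        rcases h7 with h | ⟨-, h⟩ | ⟨h, -⟩
        · omega
        · omega
        · exact h
    refine ⟨_, _, h2, h8, ?_⟩
    rw [h8] at h4
    have e : rc ⟨(pos b ⟨v - 1, s, .N⟩ (Nat.find hex)).i, s - 1, .S⟩ =
        ((pos b ⟨v - 1, s, .N⟩ (Nat.find hex)).i, s) := by simp [rc]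
    rw [e] at h4
    exact h4
  choose! σ N h1 h2 h3 using hexit
  have hinj : ∀ v w : ℤ, C (v, s) → C (w, s) → σ v = σ w → v = w := by
    intro v w hv hw he
    have h4 : pos b ⟨v - 1, s, .N⟩ (N v) = pos b ⟨w - 1, s, .N⟩ (N w) := by
      rw [h2 v hv, h2 w hw, he]
    have key : ∀ (v w : ℤ) (nv : ℕ), (∀ k < nv, s ≤ (pos b ⟨v - 1, s, .N⟩ k).j) → ∀ k ≤ nv,
        (⟨w - 1, s, .N⟩ : St) = pos b ⟨v - 1, s, .N⟩ k → v = w := by
      intro v w nv hnv k hk hkk
      rcases Nat.eq_zero_or_pos k with h0 | h0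
      · rw [h0] at hkk
        have h5 : (⟨w - 1, s, .N⟩ : St) = ⟨v - 1, s, .N⟩ := hkk
        injection h5 with h6
        omega
      · obtain ⟨l, rfl⟩ := Nat.exists_eq_succ_of_ne_zero (by omega : k ≠ 0)
        have h5 := hnv l (by omega)
        have h6 : pos b ⟨v - 1, s, .N⟩ l = back b ⟨w - 1, s, .N⟩ := by
          rw [hkk]
          exact (back_pos_succ b _ l).symm
        rw [h6] at h5
        simp [back, Dir.dy] at h5
    rcases meet b h4 with ⟨k, h5, h6⟩ | ⟨k, h5, h6⟩
    · exact key v w (N v) (h1 v hv) k (by omega) h5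
    · exact (key w v (N w) (h1 w hw) k (by omega) h5).symm
  set A : Finset ℤ := (Finset.Ioc (c - m) c).filter (fun v => C (v, s)) with hA
  have hcA : c ∈ A := by
    rw [hA, mem_filter, mem_Ioc]
    exact ⟨⟨by omega, le_rfl⟩, Relation.ReflTransGen.refl⟩
  have hmaps : ∀ v ∈ A, σ v ∈ A.erase c := by
    intro v hv
    rw [hA, mem_filter, mem_Ioc] at hv
    obtain ⟨⟨g1, g2⟩, g3⟩ := hv
    have g4 := h3 v g3
    have g5 := hin _ g4
    simp only at g5
    have g6 : σ v < c := by
      by_contra g7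
      apply h
      refine ⟨v - 1, σ v, N v, by omega, by omega, by omega, g5.2.1, ?_, h2 v g3⟩
      intro k hk
      apply hwin _ _ (h1 v g3 k hk)
      apply hpos _ _ k (fun l hl => h1 v g3 l (by omega))
      have e : rc ⟨v - 1, s, .N⟩ = (v, s) := by simp [rc]
      rw [e]; exact g3
    rw [mem_erase, hA, mem_filter, mem_Ioc]
    exact ⟨by omega, ⟨by omega, by omega⟩, g4⟩
  have hcard := Finset.card_le_card_of_injOn σ hmaps (by
    intro v hv w hw he
    rw [Finset.mem_coe, hA, mem_filter] at hv hw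
    exact hinj v w hv.2 hw.2 he)
  rw [card_erase_of_mem hcA] at hcard
  have := card_pos.2 ⟨c, hcA⟩
  omega

/-! ### covered floor sides -/

/-- in the half box of radius `m` around the floor side `y` some strand goes strictly over it -/
def CovS (b : ℤ → ℤ → Bool) (y s : ℤ) (m : ℕ) : Prop :=
  ∃ (x x' : ℤ) (n : ℕ), y - m ≤ x ∧ x < y ∧ y < x' ∧ x' ≤ y + m ∧
    (∀ k < n, win (y - m) (y + 1 + m) s m (pos b ⟨x, s, .N⟩ k).i (pos b ⟨x, s, .N⟩ k).j) ∧
    pos b ⟨x, s, .N⟩ n = ⟨x', s - 1, .S⟩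

/-- if no strand goes strictly over the floor side `y`, then one of its two ends is not covered -/
theorem not_cov_of_not_covS {y s : ℤ} {m : ℕ} (h : ¬ CovS b y s m) :
    ¬ Cov b y s m ∨ ¬ Cov b (y + 1) s m := by
  by_contra hcon
  rw [not_or, not_not, not_not] at hcon
  obtain ⟨⟨x, x', n, h1, h2, h3, h4, h5, h6⟩, ⟨z, z', n', g1, g2, g3, g4, g5, g6⟩⟩ := hcon
  unfold win at h5 g5
  -- the first strand ends in `y`
  have e1 : x' = y := by
    by_contra hne
    apply h
    refine ⟨x, x', n, h1, h2, by omega, by omega, ?_, h6⟩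
    intro k hk
    have := h5 k hk
    unfold win
    omega
  -- the second strand starts in `y`
  have e2 : z = y := by
    by_contra hne
    apply h
    refine ⟨z, z', n', by omega, by omega, by omega, by omega, ?_, g6⟩
    intro k hk
    have := g5 k hk
    unfold win
    omega
  rw [e2] at g5 g6
  rw [e1] at h6
  -- the reversed first strand and the second strand start in the same state
  have h7 : rev (pos b ⟨x, s, .N⟩ n) = ⟨y, s, .N⟩ := by
    rw [h6]
    unfold rev
    ext <;> simp [Dir.dx, Dir.dy, Dir.neg]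
  have h8 : ∀ k ≤ n, pos b ⟨y, s, .N⟩ k = rev (pos b ⟨x, s, .N⟩ (n - k)) := by
    intro k hk
    rw [← h7]
    exact pos_rev b _ hk
  have h9 : (pos b ⟨y, s, .N⟩ n).j = s - 1 ∧ (pos b ⟨y, s, .N⟩ n).i = x := by
    rw [h8 n le_rfl, Nat.sub_self, pos_zero]
    unfold rev
    simp [Dir.dx, Dir.dy]
  have h10 : ∀ k < n, s ≤ (pos b ⟨y, s, .N⟩ k).j := by
    intro k hk
    rw [h8 k hk.le]
    obtain ⟨l, hl⟩ : ∃ l, n - k = l + 1 := ⟨n - k - 1, by omega⟩
    rw [hl, pos_succ, (rev_step_tile b _).2]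
    exact (h5 l (by omega)).2.2.1
  have h11 : n = n' := by
    rcases lt_trichotomy n n' with hlt | heq | hlt
    · have := (g5 n hlt).2.2.1
      omega
    · exact heq
    · have := h10 n' hlt
      rw [g6] at this
      simp only at this
      omega
  rw [← h11] at g6
  rw [g6] at h9
  simp only at h9
  omega

end Full.Ket
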