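import Pool.Agent.Full.Ket.Cover
import Pool.Agent.Full.Walk.Unif
import Pool.Agent.Helper92.Perc.Main

/-!
# Uncovered floor points have probability at most `C m ^ (-1/3)`
-/

set_option autoImplicit false
set_option linter.unnecessarySeqFocus false

namespace Full.Ket

universe u

open Finset Full.Walk Full.Mom
open H47Perc (edgesIn halfBox lattice piH perc half)
open Pool.Agent.Helper69.RSW (P P_map P_restrict perc_half_eq)

/-- the vertex of `ℤ²` at the corner `u` (for the colour of `(c, s)`) -/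
def vtx (c s : ℤ) (u : ℤ × ℤ) : ℤ × ℤ := (((u.1 - c) + (u.2 - s)) / 2, ((u.2 - s) - (u.1 - c)) / 2)

/-- the edge of `ℤ²` which is the diagonal of the tile `t` of the colour of `(c, s)` -/
def edge (c s : ℤ) (t : ℤ × ℤ) : Sym2 (ℤ × ℤ) :=
  if (t.1 + t.2 - (c + s)) % 2 = 0 then
    s(vtx c s t, ((vtx c s t).1 + 1, (vtx c s t).2))
  else s(vtx c s (t.1 + 1, t.2), ((vtx c s (t.1 + 1, t.2)).1, (vtx c s (t.1 + 1, t.2)).2 + 1))

lemma edge_inj (c s : ℤ) : Function.Injective (edge c s) := by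
  rintro ⟨i, j⟩ ⟨i', j'⟩ h
  unfold edge vtx at h
  split_ifs at h with h1 h2 h2 <;> rw [Sym2.eq_iff] at h <;>
    simp only [Prod.mk.injEq] at h h1 h2 ⊢ <;> omega

/-- `edge` as an embedding -/
def edgeE (c s : ℤ) : ℤ × ℤ ↪ Sym2 (ℤ × ℤ) := ⟨edge c s, edge_inj c s⟩

lemma dg_edge {c s : ℤ} (t : ℤ × ℤ) :
    edge c s t = s(vtx c s (dg (c + s) t).1, vtx c s (dg (c + s) t).2) ∧
      edge c s t ∈ lattice.edgeSet := by
  obtain ⟨i, j⟩ := t
  unfold edge dg
  simp only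
  split_ifs with h1
  · constructor
    · rw [Sym2.eq_iff]
      left
      refine ⟨rfl, ?_⟩
      unfold vtx
      ext <;> simp only <;> omega
    · rw [SimpleGraph.mem_edgeSet]
      right
      constructor
      · rfl
      · simp
  · constructor
    · rw [Sym2.eq_iff]
      left
      refine ⟨rfl, ?_⟩
      unfold vtx
      ext <;> simp only <;> omega
    · rw [SimpleGraph.mem_edgeSet]
      left
      constructor
      · rfl
      · simp

lemma mem_edgesIn {S : Finset (ℤ × ℤ)} {u v : ℤ × ℤ} :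
    s(u, v) ∈ edgesIn S ↔ u ∈ S ∧ v ∈ S ∧ s(u, v) ∈ lattice.edgeSet := by
  classical
  unfold edgesIn
  simp only [mem_filter, mk_mem_sym2_iff]
  tauto

lemma mem_halfBox {n : ℕ} {z : ℤ × ℤ} :
    z ∈ halfBox (-1) (-1) n ↔ (-(n : ℤ) ≤ z.1 ∧ z.1 ≤ n ∧ -(n : ℤ) ≤ z.2 ∧ z.2 ≤ n) ∧ 0 ≤ z.1 + z.2 := by
  classical
  unfold halfBox H47Perc.box
  simp only [mem_filter, mem_Icc, Prod.le_def]
  constructor
  · rintro ⟨⟨⟨h1, h2⟩, h3, h4⟩, h5⟩
    refine ⟨⟨h1, h3, h2, h4⟩, ?_⟩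
    have : (0 : ℝ) ≤ ((z.1 + z.2 : ℤ) : ℝ) := by push_cast; linarith
    exact_mod_cast this
  · rintro ⟨⟨h1, h2, h3, h4⟩, h5⟩
    refine ⟨⟨⟨h1, h3⟩, h2, h4⟩, ?_⟩
    have : (0 : ℝ) ≤ ((z.1 + z.2 : ℤ) : ℝ) := by exact_mod_cast h5
    push_cast at this
    linarith

/-- the one-arm event in the half box, for any set of edges -/
def Arm (n : ℕ) (ω : Finset (Sym2 (ℤ × ℤ))) : Prop :=
  ∃ z : ℤ × ℤ, (|z.1| = n ∨ |z.2| = n) ∧
    H47Perc.Joined (ω ∩ edgesIn (halfBox (-1) (-1) n)) (0, 0) z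

lemma joined_edge {ω : Finset (Sym2 (ℤ × ℤ))} {z u v : ℤ × ℤ} (h : H47Perc.Joined ω z u)
    (he : s(u, v) ∈ ω) (hne : u ≠ v) : H47Perc.Joined ω z v := by
  unfold H47Perc.Joined at h ⊢
  refine h.trans (SimpleGraph.Adj.reachable ?_)
  rw [SimpleGraph.fromEdgeSet_adj]
  exact ⟨he, hne⟩

/-- a cluster which leaves the half box of tiles contains an arm of half the length -/
lemma arm_of_far {c s : ℤ} {m n : ℕ} (hn : 1 ≤ n) (hnm : 2 * n ≤ m) {b : ℤ → ℤ → Bool}
    (h : ∃ v, Conn (c + s) (oset (c + s) b (winF (c - m) (c + m) s m)) (c, s) v ∧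
      (v.1 = c - m ∨ v.1 = c + m ∨ v.2 = s + m)) :
    Arm n ((oset (c + s) b (winF (c - m) (c + m) s m)).map (edgeE c s)) := by
  classical
  by_contra hA
  obtain ⟨v, hv, hfar⟩ := h
  set O := oset (c + s) b (winF (c - m) (c + m) s m) with hO
  set ω := O.map (edgeE c s) ∩ edgesIn (halfBox (-1) (-1) n) with hω
  have hcol0 : col (c + s) (c, s) := by unfold col; simp
  have key : ∀ v, Conn (c + s) O (c, s) v → H47Perc.Joined ω (0, 0) (vtx c s v) ∧
      -(n : ℤ) < (vtx c s v).1 ∧ (vtx c s v).1 < n ∧ -(n : ℤ) < (vtx c s v).2 ∧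
        (vtx c s v).2 < n ∧ s ≤ v.2 := by
    intro v hv
    induction hv with
    | refl =>
      have e : vtx c s (c, s) = (0, 0) := by unfold vtx; simp
      rw [e]
      refine ⟨SimpleGraph.Reachable.refl _, ?_, ?_, ?_, ?_, le_rfl⟩ <;> simp only <;> omega
    | @tail u w hu huw ih =>
      obtain ⟨h1, h2, h3, h4, h5, h6⟩ := ih
      have hcu : col (c + s) u := col_of_conn hcol0 hu
      obtain ⟨t, ht, h7⟩ := huw
      obtain ⟨h8, h9⟩ := dg_edge (c := c) (s := s) t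
      have h10 : s(vtx c s u, vtx c s w) = edge c s t := by
        rcases h7 with ⟨rfl, rfl⟩ | ⟨rfl, rfl⟩
        · exact h8.symm
        · rw [h8, Sym2.eq_swap]
      have ht' := ht
      rw [hO, mem_oset, mem_winF] at ht'
      obtain ⟨⟨g1, g2, g3, g4⟩, -⟩ := ht'
      have hbd : |(vtx c s w).1 - (vtx c s u).1| ≤ 1 ∧ |(vtx c s w).2 - (vtx c s u).2| ≤ 1 ∧
          s ≤ w.2 ∧ 0 ≤ (vtx c s u).1 + (vtx c s u).2 ∧ 0 ≤ (vtx c s w).1 + (vtx c s w).2 := by
        unfold dg at h7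
        unfold col at hcu
        unfold vtx
        rw [abs_le, abs_le]
        simp only
        rcases h7 with ⟨h7, h7'⟩ | ⟨h7, h7'⟩ <;> split_ifs at h7 h7' with hp <;>
          rw [h7] at hcu h6 ⊢ <;> rw [h7'] <;> simp only at hcu h6 ⊢ <;> omega
      obtain ⟨k1, k2, k3, k4, k5⟩ := hbd
      rw [abs_le] at k1 k2
      have hmem : s(vtx c s u, vtx c s w) ∈ ω := by
        rw [hω, mem_inter]
        constructor
        · rw [h10, mem_map]
          exact ⟨t, ht, rfl⟩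
        · rw [mem_edgesIn]
          refine ⟨mem_halfBox.2 ⟨⟨by omega, by omega, by omega, by omega⟩, k4⟩,
            mem_halfBox.2 ⟨⟨by omega, by omega, by omega, by omega⟩, k5⟩, ?_⟩
          rw [h10]; exact h9
      have hne : vtx c s u ≠ vtx c s w := by
        intro he
        rw [← h10, he] at h9
        exact (SimpleGraph.not_isDiag_of_mem_edgeSet _ h9) (by simp)
      have hj := joined_edge h1 hmem hne
      have hlt : ∀ z : ℤ × ℤ, z = vtx c s w → |z.1| ≠ n ∧ |z.2| ≠ n := by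
        rintro z rfl
        constructor
        · intro h; exact hA ⟨_, Or.inl h, hj⟩
        · intro h; exact hA ⟨_, Or.inr h, hj⟩
      obtain ⟨l1, l2⟩ := hlt _ rfl
      have l3 : |(vtx c s w).1| < n := lt_of_le_of_ne (abs_le.2 ⟨by omega, by omega⟩) l1
      have l4 : |(vtx c s w).2| < n := lt_of_le_of_ne (abs_le.2 ⟨by omega, by omega⟩) l2
      rw [abs_lt] at l3 l4
      exact ⟨hj, l3.1, l3.2, l4.1, l4.2, k3⟩
  obtain ⟨-, h1, h2, h3, h4, h5⟩ := key v hv
  have h6 := col_of_conn hcol0 hv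
  unfold vtx at h1 h2 h3 h4
  unfold col at h6
  simp only at h1 h2 h3 h4
  omega

lemma P_arm (n : ℕ) : P (edgesIn (halfBox (-1) (-1) n)) (Arm n) = piH (-1) (-1) n := by
  unfold piH
  rw [perc_half_eq]
  apply Pool.Agent.Helper69.RSW.P_congr
  intro ω hω
  unfold Arm
  rw [inter_eq_left.2 hω]

/-- the tiles of the edges in the half box are tiles of the window -/
lemma edges_sub {c s : ℤ} {m n : ℕ} (hnm : 2 * n ≤ m) :
    edgesIn (halfBox (-1) (-1) n) ⊆ (winF (c - m) (c + m) s m).map (edgeE c s) := by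
  intro e
  induction e with
  | h u v =>
    intro he
    obtain ⟨h1, h2, h3⟩ := mem_edgesIn.1 he
    rw [mem_halfBox] at h1 h2
    rw [SimpleGraph.mem_edgeSet] at h3
    rw [mem_map]
    -- the corners of `u` and `v`
    have main : ∀ u v : ℤ × ℤ, ((-(n : ℤ) ≤ u.1 ∧ u.1 ≤ n ∧ -(n : ℤ) ≤ u.2 ∧ u.2 ≤ n) ∧ 0 ≤ u.1 + u.2) →
        ((-(n : ℤ) ≤ v.1 ∧ v.1 ≤ n ∧ -(n : ℤ) ≤ v.2 ∧ v.2 ≤ n) ∧ 0 ≤ v.1 + v.2) →
        (v = (u.1 + 1, u.2) ∨ v = (u.1, u.2 + 1)) →
        ∃ t ∈ winF (c - m) (c + m) s m, edge c s t = s(u, v) := by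
      intro u v h1 h2 h3
      rcases h3 with h3 | h3
      · refine ⟨(c + u.1 - u.2, s + u.1 + u.2), ?_, ?_⟩
        · rw [mem_winF]
          rw [h3] at h2
          simp only at h2 ⊢
          omega
        · have hv : vtx c s (c + u.1 - u.2, s + u.1 + u.2) = u := by
            unfold vtx; ext <;> simp only <;> omega
          unfold edge
          rw [if_pos (by simp only; omega), hv, h3]
      · refine ⟨(c + u.1 - u.2 - 1, s + u.1 + u.2), ?_, ?_⟩
        · rw [mem_winF]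
          rw [h3] at h2
          simp only at h2 ⊢
          omega
        · have hv : vtx c s (c + u.1 - u.2 - 1 + 1, s + u.1 + u.2) = u := by
            unfold vtx; ext <;> simp only <;> omega
          unfold edge
          rw [if_neg (by simp only; omega)]
          simp only
          rw [hv, h3]
    rcases h3 with ⟨h3, h4⟩ | ⟨h3, h4⟩
    · rcases abs_cases (u.2 - v.2) with ⟨h5, h6⟩ | ⟨h5, h6⟩
      · obtain ⟨t, ht, he⟩ := main v u h2 h1 (Or.inr (Prod.ext (by simp only; omega) (by simp only; omega)))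
        exact ⟨t, ht, by rw [Sym2.eq_swap]; exact he⟩
      · obtain ⟨t, ht, he⟩ := main u v h1 h2 (Or.inr (Prod.ext (by simp only; omega) (by simp only; omega)))
        exact ⟨t, ht, he⟩
    · rcases abs_cases (u.1 - v.1) with ⟨h5, h6⟩ | ⟨h5, h6⟩
      · obtain ⟨t, ht, he⟩ := main v u h2 h1 (Or.inl (Prod.ext (by simp only; omega) (by simp only; omega)))
        exact ⟨t, ht, by rw [Sym2.eq_swap]; exact he⟩
      · obtain ⟨t, ht, he⟩ := main u v h1 h2 (Or.inl (Prod.ext (by simp only; omega) (by simp only; omega)))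
        exact ⟨t, ht, he⟩

/-- probability that a floor point is not covered in its half box -/
theorem pr_not_cov_le {ι : Type*} [Fintype ι] [DecidableEq ι] (τ : ℤ → ℤ → ι) (c s : ℤ) {m n : ℕ}
    (hn : 1 ≤ n) (hnm : 2 * n ≤ m)
    (hτ : ∀ t ∈ winF (c - m) (c + m) s m, ∀ t' ∈ winF (c - m) (c + m) s m,
      τ t.1 t.2 = τ t'.1 t'.2 → t = t') :
    pr (fun ω : ι → Bool => ¬ Cov (fun i j => ω (τ i j)) c s m) ≤ piH (-1) (-1) n := by
  classical
  calc pr (fun ω : ι → Bool => ¬ Cov (fun i j => ω (τ i j)) c s m)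
      ≤ pr (fun ω : ι → Bool => Arm n ((oset (c + s) (fun i j => ω (τ i j))
          (winF (c - m) (c + m) s m)).map (edgeE c s))) :=
        pr_mono fun ω hω => arm_of_far hn hnm (far_of_not_cov (by omega) hω)
    _ = P (winF (c - m) (c + m) s m) (fun S => Arm n (S.map (edgeE c s))) :=
        pr_oset τ (c + s) _ hτ (fun S => Arm n (S.map (edgeE c s)))
    _ = P ((winF (c - m) (c + m) s m).map (edgeE c s)) (Arm n) := (P_map _ _ _).symm
    _ = P (edgesIn (halfBox (-1) (-1) n)) (Arm n) := by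
        apply P_restrict (edges_sub hnm)
        intro ω
        unfold Arm
        rw [inter_assoc, inter_self]
    _ = piH (-1) (-1) n := P_arm n

/-- **Uncovered floor points**: there is a constant `C` such that, for fair bits, the probability
that no strand goes over a given floor point inside its half box of radius `m` is at most
`C m ^ (-1/3)`. -/
theorem exists_cov_bound : ∃ C : ℝ, 1 ≤ C ∧ ∀ (ι : Type u) [Fintype ι] [DecidableEq ι] (τ : ℤ → ℤ → ι)
    (c s : ℤ) (m : ℕ), 1 ≤ m →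
    (∀ t ∈ winF (c - m) (c + m) s m, ∀ t' ∈ winF (c - m) (c + m) s m,
      τ t.1 t.2 = τ t'.1 t'.2 → t = t') →
    pr (fun ω : ι → Bool => ¬ Cov (fun i j => ω (τ i j)) c s m) ≤ C * (m : ℝ) ^ (-(1 / 3) : ℝ) := by
  obtain ⟨c0, C, hc0, h1, -⟩ := H47Perc.one_arm_exponents
  have hC : 0 ≤ C := by
    obtain ⟨h2, h3⟩ := h1 (-1) (-1) (Or.inl (by norm_num)) 1 le_rfl
    rw [Nat.cast_one, Real.one_rpow, mul_one] at h2 h3
    linarith
  refine ⟨2 * C + 2, by linarith, ?_⟩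
  intro ι _ _ τ c s m hm hτ
  have hmpos : (0 : ℝ) < m := by exact_mod_cast hm
  have hrp : 0 < (m : ℝ) ^ (-(1 / 3) : ℝ) := Real.rpow_pos_of_pos hmpos _
  rcases Nat.lt_or_ge m 2 with h2 | h2
  · have h3 : m = 1 := by omega
    subst h3
    have h4 := pr_le_one (fun ω : ι → Bool => ¬ Cov (fun i j => ω (τ i j)) c s 1)
    rw [Nat.cast_one, Real.one_rpow, mul_one]
    linarith
  · have h3 : 1 ≤ m / 2 := by omega
    have h4 := pr_not_cov_le τ c s h3 (by omega : 2 * (m / 2) ≤ m) hτ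
    have h5 := (h1 (-1) (-1) (Or.inl (by norm_num)) (m / 2) h3).2
    have h6 : (m : ℝ) / 4 ≤ ((m / 2 : ℕ) : ℝ) := by
      have : (m : ℝ) ≤ 4 * ((m / 2 : ℕ) : ℝ) := by exact_mod_cast (by omega : m ≤ 4 * (m / 2))
      linarith
    have h7 : ((m / 2 : ℕ) : ℝ) ^ (-(1 / 3) : ℝ) ≤ ((m : ℝ) / 4) ^ (-(1 / 3) : ℝ) :=
      Real.rpow_le_rpow_of_nonpos (by positivity) h6 (by norm_num)
    have h8 : ((m : ℝ) / 4) ^ (-(1 / 3) : ℝ) ≤ 2 * (m : ℝ) ^ (-(1 / 3) : ℝ) := by
      rw [Real.div_rpow hmpos.le (by norm_num), div_eq_mul_inv, mul_comm]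
      apply mul_le_mul_of_nonneg_right _ hrp.le
      rw [← Real.rpow_neg (by norm_num), neg_neg]
      calc (4 : ℝ) ^ (1 / 3 : ℝ) ≤ 8 ^ (1 / 3 : ℝ) :=
            Real.rpow_le_rpow (by norm_num) (by norm_num) (by norm_num)
        _ = 2 := by
          rw [show (8 : ℝ) = 2 ^ (3 : ℝ) by norm_num, ← Real.rpow_mul (by norm_num)]
          norm_num
    calc pr (fun ω : ι → Bool => ¬ Cov (fun i j => ω (τ i j)) c s m)
        ≤ C * ((m / 2 : ℕ) : ℝ) ^ (-(1 / 3) : ℝ) := h4.trans h5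
      _ ≤ C * (2 * (m : ℝ) ^ (-(1 / 3) : ℝ)) :=
          mul_le_mul_of_nonneg_left (h7.trans h8) hC
      _ ≤ (2 * C + 2) * (m : ℝ) ^ (-(1 / 3) : ℝ) := by nlinarith

lemma pr_or_le {ι : Type*} [Fintype ι] [DecidableEq ι] (E F : (ι → Bool) → Prop) :
    pr (fun ω => E ω ∨ F ω) ≤ pr E + pr F := by
  classical
  unfold pr
  rw [← avg_add]
  apply avg_mono
  intro ω
  by_cases h1 : E ω <;> by_cases h2 : F ω <;> simp [h1, h2]

/-- the same for floor sides -/
theorem exists_covS_bound : ∃ C : ℝ, 1 ≤ C ∧ ∀ (ι : Type u) [Fintype ι] [DecidableEq ι] (τ : ℤ → ℤ → ι)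
    (y s : ℤ) (m : ℕ), 1 ≤ m →
    (∀ t ∈ winF (y - m) (y + 1 + m) s m, ∀ t' ∈ winF (y - m) (y + 1 + m) s m,
      τ t.1 t.2 = τ t'.1 t'.2 → t = t') →
    pr (fun ω : ι → Bool => ¬ CovS (fun i j => ω (τ i j)) y s m) ≤ C * (m : ℝ) ^ (-(1 / 3) : ℝ) := by
  obtain ⟨C, hC, h⟩ := exists_cov_bound.{u}
  refine ⟨2 * C, by linarith, ?_⟩
  intro ι _ _ τ y s m hm hτ
  have h1 := h ι τ y s m hm (fun t ht t' ht' => hτ t
    (by rw [mem_winF] at ht ⊢; omega) t' (by rw [mem_winF] at ht' ⊢; omega))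
  have h2 := h ι τ (y + 1) s m hm (fun t ht t' ht' => hτ t
    (by rw [mem_winF] at ht ⊢; omega) t' (by rw [mem_winF] at ht' ⊢; omega))
  calc pr (fun ω : ι → Bool => ¬ CovS (fun i j => ω (τ i j)) y s m)
      ≤ pr (fun ω : ι → Bool => ¬ Cov (fun i j => ω (τ i j)) y s m ∨
          ¬ Cov (fun i j => ω (τ i j)) (y + 1) s m) := pr_mono fun ω => not_cov_of_not_covS
    _ ≤ _ := pr_or_le _ _
    _ ≤ 2 * C * (m : ℝ) ^ (-(1 / 3) : ℝ) := by linarith

end Full.Ket
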