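import Pool.Agent.Full.Ket.Window
import Pool.Agent.Full.Walk.Fin

/-!
# Windows: the law of the configuration seen in a window

The configuration `pull A φ σ ω` seen in a window is uniform on the subsets of `A`, it depends only
on the bits of the tiles of the window.  The probabilities that a mark of the floor is uncovered.
-/

set_option autoImplicit false

namespace Full

open Finset Function Full.Mom Full.Walk
open Full.Corner (conf mem_conf)
open Pool.Agent.Helper69.RSW (P)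
open Full.Perc (Ex)

/-- the average of a function of the configuration in `A` does not depend on the index system -/
theorem avg_conf {ι : Type*} [Fintype ι] [DecidableEq ι] {τ : ℤ × ℤ → ι} {A : Finset (ℤ × ℤ)}
    (hτ : Set.InjOn τ A) (F : Finset (ℤ × ℤ) → ℝ) :
    avg (fun ω : ι → Bool => F (conf τ A ω)) = Ex A F := by
  classical
  have h := avg_bits (fun i j => τ (i, j)) A (fun t ht t' ht' he => hτ ht ht' he)
    (fun b => F (A.filter (fun t => b t.1 t.2 = true))) (fun b b' hb => by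
      have : A.filter (fun t => b t.1 t.2 = true) = A.filter (fun t => b' t.1 t.2 = true) :=
        filter_congr fun t ht => by rw [hb t ht]
      show F _ = F _
      rw [this])
  refine Eq.trans ?_ (h.trans ?_)
  · congr 1
  · apply Full.Perc.Ex_congr
    intro S hS
    congr 1
    ext t
    rw [mem_filter]
    unfold sbits
    constructor
    · rintro ⟨-, h1⟩
      exact of_decide_eq_true h1
    · intro h1
      exact ⟨hS h1, decide_eq_true h1⟩

/-- flipping the bits -/
theorem avg_conf' {ι : Type*} [Fintype ι] [DecidableEq ι] {τ : ℤ × ℤ → ι} {A : Finset (ℤ × ℤ)}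
    (hτ : Set.InjOn τ A) (σ : Bool) (F : Finset (ℤ × ℤ) → ℝ) :
    avg (fun ω : ι → Bool => F (conf τ A (fun i => xor σ (ω i)))) = Ex A F := by
  cases σ with
  | false =>
    rw [← avg_conf hτ F]
    congr 1
    funext ω
    simp only [Bool.false_xor]
  | true =>
    rw [← avg_conf hτ F, ← avg_not (fun ω => F (conf τ A ω))]
    congr 1
    funext ω
    simp only [Bool.true_xor]

variable {τ : Type*} [DecidableEq τ] {T : Finset τ} {A : Finset (ℤ × ℤ)} {φ : ℤ × ℤ → τ}

/-- the configuration seen in a window depends only on the bits of the window -/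
theorem dep_pull {β : Type*} (σ : Bool) (F : Finset (ℤ × ℤ) → β) :
    Dep {t : T | ∃ z ∈ A, φ z = t} (fun ω : T → Bool => F (pull A φ σ (ofBits T ω))) := by
  intro ω ω' h
  have : pull A φ σ (ofBits T ω) = pull A φ σ (ofBits T ω') := by
    unfold pull
    apply filter_congr
    intro t ht
    have h1 : (φ t ∈ ofBits T ω) ↔ (φ t ∈ ofBits T ω') := by
      rw [mem_ofBits, mem_ofBits]
      constructor
      · rintro ⟨h2, h3⟩
        exact ⟨h2, by rw [← h ⟨φ t, h2⟩ ⟨t, ht, rfl⟩]; exact h3⟩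
      · rintro ⟨h2, h3⟩
        exact ⟨h2, by rw [h ⟨φ t, h2⟩ ⟨t, ht, rfl⟩]; exact h3⟩
    rw [decide_eq_decide.2 h1]
  show F _ = F _
  rw [this]

/-- **the configuration seen in a window is uniform** -/
theorem avg_pull (hmem : ∀ t ∈ A, φ t ∈ T) (hinj : Set.InjOn φ A) (σ : Bool)
    (F : Finset (ℤ × ℤ) → ℝ) :
    avg (fun ω : T → Bool => F (pull A φ σ (ofBits T ω))) = Ex A F := by
  classical
  rcases A.eq_empty_or_nonempty with rfl | ⟨t0, ht0⟩
  · have h1 : ∀ ω : T → Bool, pull ∅ φ σ (ofBits T ω) = ∅ := fun ω => filter_empty _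
    simp only [h1]
    rw [avg_const]
    unfold Ex
    simp
  · set ψ : ℤ × ℤ → T := fun t => if h : φ t ∈ T then ⟨φ t, h⟩ else ⟨φ t0, hmem t0 ht0⟩ with hψ
    have hψ1 : ∀ t, ∀ h : t ∈ A, ψ t = ⟨φ t, hmem t h⟩ := fun t h => by
      rw [hψ]
      simp only
      rw [dif_pos (hmem t h)]
    have hψ2 : Set.InjOn ψ A := by
      intro t ht t' ht' he
      rw [hψ1 t ht, hψ1 t' ht'] at he
      exact hinj ht ht' (congrArg Subtype.val he)
    rw [← avg_conf' hψ2 σ F]
    congr 1
    funext ω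
    congr 1
    unfold pull conf
    apply filter_congr
    intro t ht
    rw [hψ1 t ht]
    by_cases h1 : φ t ∈ ofBits T ω
    · obtain ⟨h2, h3⟩ := mem_ofBits.1 h1
      rw [decide_eq_true h1]
      show _ ↔ (σ ^^ ω ⟨φ t, h2⟩) = true
      rw [h3]
    · have h2 : ω ⟨φ t, hmem t ht⟩ = false := by
        cases h3 : ω ⟨φ t, hmem t ht⟩
        · rfl
        · exact absurd (mem_ofBits.2 ⟨hmem t ht, h3⟩) h1
      rw [decide_eq_false h1]
      show _ ↔ (σ ^^ ω ⟨φ t, hmem t ht⟩) = true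
      rw [h2]

theorem pr_pull (hmem : ∀ t ∈ A, φ t ∈ T) (hinj : Set.InjOn φ A) (σ : Bool)
    (E : Finset (ℤ × ℤ) → Prop) :
    pr (fun ω : T → Bool => E (pull A φ σ (ofBits T ω))) = P A E := by
  classical
  rw [← Full.Perc.Ex_ite, ← avg_pull hmem hinj σ]
  unfold pr
  congr 1

theorem Ex_pull (hmem : ∀ t ∈ A, φ t ∈ T) (hinj : Set.InjOn φ A) (σ : Bool)
    (F : Finset (ℤ × ℤ) → ℝ) : Ex T (fun ω => F (pull A φ σ ω)) = Ex A F := by
  rw [Ex_eq_avg, avg_pull hmem hinj σ]

theorem P_pull (hmem : ∀ t ∈ A, φ t ∈ T) (hinj : Set.InjOn φ A) (σ : Bool)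
    (E : Finset (ℤ × ℤ) → Prop) : P T (fun ω => E (pull A φ σ ω)) = P A E := by
  rw [P_eq_pr, pr_pull hmem hinj σ]

/-- a smaller window of the same chart -/
theorem pull_sub {B : Finset (ℤ × ℤ)} (hB : B ⊆ A) (σ : Bool) (ω : Finset τ) :
    (pull A φ σ ω).filter (fun t => t ∈ B) = pull B φ σ ω := by
  ext t
  rw [mem_filter, mem_pull, mem_pull]
  exact ⟨fun h => ⟨h.2, h.1.2⟩, fun h => ⟨⟨hB h.1, h.2⟩, h.1⟩⟩

namespace Ket

/-- **uncovered marks**, intrinsic form -/
theorem exists_P_bound : ∃ C : ℝ, 1 ≤ C ∧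
    (∀ (c s : ℤ) (m : ℕ), 1 ≤ m →
      P (hbox c s m) (fun ω => ¬ CovG c s m ω) ≤ C * (m : ℝ) ^ (-(1 / 3) : ℝ)) ∧
    (∀ (y s : ℤ) (m : ℕ), 1 ≤ m →
      P (hboxS y s m) (fun ω => ¬ CovGS y s m ω) ≤ C * (m : ℝ) ^ (-(1 / 3) : ℝ)) := by
  classical
  obtain ⟨C, h1, h2, h3⟩ := exists_covG_bound.{0}
  refine ⟨C, h1, ?_, ?_⟩
  · intro c s m hm
    have hmem : (c, s) ∈ hbox c s m := by
      unfold hbox
      rw [mem_winF]
      simp only
      omega
    set ψ : ℤ × ℤ → hbox c s m := fun t => if h : t ∈ hbox c s m then ⟨t, h⟩ else ⟨(c, s), hmem⟩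
      with hψ
    have hψ1 : ∀ t, ∀ h : t ∈ hbox c s m, ψ t = ⟨t, h⟩ := fun t h => by
      rw [hψ]
      simp only
      rw [dif_pos h]
    have hψ2 : Set.InjOn ψ (hbox c s m) := by
      intro t ht t' ht' he
      rw [hψ1 t ht, hψ1 t' ht'] at he
      exact congrArg Subtype.val he
    have h4 := h2 _ ψ c s m hm hψ2
    rw [← Full.Perc.Ex_ite, ← avg_conf hψ2]
    refine le_trans (le_of_eq ?_) h4
    unfold pr
    congr 1
  · intro c s m hm
    have hmem : (c, s) ∈ hboxS c s m := by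
      unfold hboxS
      rw [mem_winF]
      simp only
      omega
    set ψ : ℤ × ℤ → hboxS c s m := fun t => if h : t ∈ hboxS c s m then ⟨t, h⟩ else ⟨(c, s), hmem⟩
      with hψ
    have hψ1 : ∀ t, ∀ h : t ∈ hboxS c s m, ψ t = ⟨t, h⟩ := fun t h => by
      rw [hψ]
      simp only
      rw [dif_pos h]
    have hψ2 : Set.InjOn ψ (hboxS c s m) := by
      intro t ht t' ht' he
      rw [hψ1 t ht, hψ1 t' ht'] at he
      exact congrArg Subtype.val he
    have h4 := h3 _ ψ c s m hm hψ2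
    rw [← Full.Perc.Ex_ite, ← avg_conf hψ2]
    refine le_trans (le_of_eq ?_) h4
    unfold pr
    congr 1

end Ket

namespace Win

variable {g : Half τ → Half τ} {R : Equiv.Perm Dir} {σ : Bool} {ω : Finset τ}

/-- a covering strand of a half box window is a strand of `(T, g)` -/
theorem cov {c s : ℤ} {m : ℕ} (h : Win T g (Ket.hbox c s m) φ R σ) (hG : Glu T g)
    (hfl : ∀ x : ℤ, c - m ≤ x → x < c + m → g (im φ R ((x, s), .S)) = im φ R ((x, s), .S))
    (hc : Ket.CovG c s m (pull (Ket.hbox c s m) φ σ ω)) :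
    ∃ x x' : ℤ, c - m ≤ x ∧ x < c ∧ c ≤ x' ∧ x' < c + m ∧
      other (mate (pull (Ket.hbox c s m) φ σ ω)) (plane.glue (Ket.hbox c s m)) ((x, s), .S) =
        ((x', s), .S) ∧
      other (mate ω) g (im φ R ((x, s), .S)) = im φ R ((x', s), .S) := by
  obtain ⟨x, x', h1, h2, h3, h4, h5⟩ := hc
  refine ⟨x, x', h1, h2, h3, h4, h5, h.other_im hG ?_ ?_ (hfl x h1 (by omega))
    (hfl x' (by omega) h4) h5⟩
  · unfold Ket.hbox
    rw [mem_winF]
    simp only
    omega
  · exact Ket.floor_fix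

/-- a strand of the half box window strictly over the floor side `y` is a strand of `(T, g)` -/
theorem covS {y s : ℤ} {m : ℕ} (h : Win T g (Ket.hboxS y s m) φ R σ) (hG : Glu T g)
    (hfl : ∀ x : ℤ, y - m ≤ x → x ≤ y + m → g (im φ R ((x, s), .S)) = im φ R ((x, s), .S))
    (hc : Ket.CovGS y s m (pull (Ket.hboxS y s m) φ σ ω)) :
    ∃ x x' : ℤ, y - m ≤ x ∧ x < y ∧ y < x' ∧ x' ≤ y + m ∧
      other (mate (pull (Ket.hboxS y s m) φ σ ω)) (plane.glue (Ket.hboxS y s m)) ((x, s), .S) =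
        ((x', s), .S) ∧
      other (mate ω) g (im φ R ((x, s), .S)) = im φ R ((x', s), .S) := by
  obtain ⟨x, x', h1, h2, h3, h4, h5⟩ := hc
  refine ⟨x, x', h1, h2, h3, h4, h5, h.other_im hG ?_ ?_ (hfl x h1 (by omega))
    (hfl x' (by omega) h4) h5⟩
  · unfold Ket.hboxS
    rw [mem_winF]
    simp only
    omega
  · exact Ket.floor_fix

end Win

end Full
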