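import Pool.Agent.Full.Ket.Bridge
import Pool.Agent.Full.Corner.Count

/-!
# Windows

`Win T g A φ R σ`: the planar region `A` is a window of the glued region `(T, g)`; `φ` is the chart,
`R` the map of the directions (a rotation or a reflection), the bits are changed by `σ`.
`pull A φ σ ω` is the configuration seen in the window.  A strand of the window whose two ends are
fixed by `g` is a strand of `(T, g)`, and conversely for the strands which stay in the window.
-/

set_option autoImplicit false

namespace Full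

open Finset Function

variable {τ : Type*}

/-- the planar region `A` is a window of the glued region `(T, g)` -/
structure Win (T : Finset τ) (g : Half τ → Half τ) (A : Finset (ℤ × ℤ)) (φ : ℤ × ℤ → τ)
    (R : Equiv.Perm Dir) (σ : Bool) : Prop where
  mem : ∀ t ∈ A, φ t ∈ T
  inj : Set.InjOn φ A
  link : ∀ t ∈ A, ∀ d : Dir, t + d.vec ∈ A → g (φ t, R d) = (φ (t + d.vec), R d.opp)
  bit : ∀ (b : Bool) (d : Dir), Dir.mt (xor σ b) (R d) = R (Dir.mt b d)

/-- the half edge in the chart -/
def im (φ : ℤ × ℤ → τ) (R : Equiv.Perm Dir) (x : Half (ℤ × ℤ)) : Half τ := (φ x.1, R x.2)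

/-- the configuration seen in the window -/
def pull [DecidableEq τ] (A : Finset (ℤ × ℤ)) (φ : ℤ × ℤ → τ) (σ : Bool) (ω : Finset τ) :
    Finset (ℤ × ℤ) := A.filter (fun t => xor σ (decide (φ t ∈ ω)) = true)

lemma mem_pull [DecidableEq τ] {A : Finset (ℤ × ℤ)} {φ : ℤ × ℤ → τ} {σ : Bool} {ω : Finset τ}
    {t : ℤ × ℤ} : t ∈ pull A φ σ ω ↔ t ∈ A ∧ xor σ (decide (φ t ∈ ω)) = true := mem_filter

lemma decide_pull [DecidableEq τ] {A : Finset (ℤ × ℤ)} {φ : ℤ × ℤ → τ} {σ : Bool} {ω : Finset τ}
    {t : ℤ × ℤ} (ht : t ∈ A) : decide (t ∈ pull A φ σ ω) = xor σ (decide (φ t ∈ ω)) := by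
  cases h : xor σ (decide (φ t ∈ ω))
  · rw [decide_eq_false_iff_not, mem_pull, h]
    exact fun h1 => Bool.noConfusion h1.2
  · rw [decide_eq_true_iff, mem_pull, h]
    exact ⟨ht, rfl⟩

namespace Win

variable {T : Finset τ} {g : Half τ → Half τ} {A : Finset (ℤ × ℤ)} {φ : ℤ × ℤ → τ}
  {R : Equiv.Perm Dir} {σ : Bool}

lemma mono (h : Win T g A φ R σ) {B : Finset (ℤ × ℤ)} (hB : B ⊆ A) : Win T g B φ R σ :=
  ⟨fun t ht => h.mem t (hB ht), h.inj.mono (by exact_mod_cast hB),
    fun t ht d hd => h.link t (hB ht) d (hB hd), h.bit⟩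

variable (h : Win T g A φ R σ)
include h

lemma im_inj {x y : Half (ℤ × ℤ)} (hx : x.1 ∈ A) (hy : y.1 ∈ A) (he : im φ R x = im φ R y) :
    x = y := by
  have h1 : x.1 = y.1 := h.inj hx hy (congrArg Prod.fst he)
  have h2 : x.2 = y.2 := R.injective (congrArg Prod.snd he)
  exact Prod.ext h1 h2

lemma glue_im {x : Half (ℤ × ℤ)} (hx : plane.glue A x ≠ x) :
    g (im φ R x) = im φ R (plane.glue A x) := by
  obtain ⟨t, d⟩ := x
  rw [plane_glue] at hx ⊢
  split_ifs at hx ⊢ with h1
  · exact h.link t h1.1 d h1.2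
  · exact absurd rfl hx

variable [DecidableEq τ] {ω : Finset τ}

lemma mate_im {x : Half (ℤ × ℤ)} (hx : x.1 ∈ A) :
    mate ω (im φ R x) = im φ R (mate (pull A φ σ ω) x) := by
  unfold mate im
  simp only
  rw [decide_pull hx, ← h.bit]
  congr 2
  cases σ <;> cases decide (φ x.1 ∈ ω) <;> rfl

/-- a strand of the window is a piece of a strand of `(T, g)` -/
theorem conn_im {x y : Half (ℤ × ℤ)} (hx : x.1 ∈ A)
    (hc : Conn (mate (pull A φ σ ω)) (plane.glue A) x y) :
    Conn (mate ω) g (im φ R x) (im φ R y) := by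
  induction hc with
  | refl => exact Conn.refl _
  | @tail y z h1 h2 ih =>
    have hy : y.1 ∈ A := (plane.glu A).conn_mem h1 hx
    rcases h2 with rfl | rfl
    · rw [← h.mate_im hy]
      exact ih.trans (Conn.m_step _)
    · by_cases h3 : plane.glue A y = y
      · rw [h3]; exact ih
      · rw [← h.glue_im h3]
        exact ih.trans (Conn.g_step _)

/-- a strand of the window whose two ends are fixed by `g` is a strand of `(T, g)` -/
theorem other_im (hG : Glu T g) {x y : Half (ℤ × ℤ)} (hx : x.1 ∈ A) (hx1 : plane.glue A x = x)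
    (hx2 : g (im φ R x) = im φ R x) (hy2 : g (im φ R y) = im φ R y)
    (hxy : other (mate (pull A φ σ ω)) (plane.glue A) x = y) :
    other (mate ω) g (im φ R x) = im φ R y := by
  have hP := plane.glu A
  have hc : Conn (mate (pull A φ σ ω)) (plane.glue A) x y := by
    rw [← hxy]
    exact Two.conn_other x
  have hy : y.1 ∈ A := hP.conn_mem hc hx
  have hne : y ≠ x := by
    rw [← hxy]
    exact hP.other_ne ⟨hx, hx1⟩
  rw [(hG.two ω).other_eq_iff hx2 (hG.periodic ω _) hy2]
  exact ⟨h.conn_im hx hc, fun he => hne (h.im_inj hy hx he)⟩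

/-- **the strands seen in a window**: the strand of `(T, g)` which starts at the image of a boundary
half edge of the window is the image of the strand of the window, or it leaves the window -/
theorem other_cases (hG : Glu T g)
    (hout : ∀ t ∈ A, ∀ d : Dir, t + d.vec ∉ A → g (φ t, R d) = (φ t, R d) ∨
      ∀ t' ∈ A, φ t' ≠ (g (φ t, R d)).1)
    {x : Half (ℤ × ℤ)} (hx : x.1 ∈ A) (hx1 : plane.glue A x = x)
    (hx2 : g (im φ R x) = im φ R x) :
    (g (im φ R (other (mate (pull A φ σ ω)) (plane.glue A) x)) =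
        im φ R (other (mate (pull A φ σ ω)) (plane.glue A) x) ∧
      other (mate ω) g (im φ R x) =
        im φ R (other (mate (pull A φ σ ω)) (plane.glue A) x)) ∨
    ∃ z, Conn (mate ω) g (im φ R x) z ∧ z.1 ∈ T ∧ ∀ t' ∈ A, φ t' ≠ z.1 := by
  set y := other (mate (pull A φ σ ω)) (plane.glue A) x with hy
  have hP := plane.glu A
  have hyb : Bd A (plane.glue A) y := hP.other_bd ⟨hx, hx1⟩
  have hc : Conn (mate (pull A φ σ ω)) (plane.glue A) x y := Two.conn_other x
  by_cases h1 : g (im φ R y) = im φ R y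
  · exact Or.inl ⟨h1, h.other_im hG hx hx1 hx2 h1 hy.symm⟩
  · right
    refine ⟨g (im φ R y), (h.conn_im hx hc).trans (Conn.g_step _), ?_, ?_⟩
    · exact hG.mem _ (h.mem _ hyb.1)
    · obtain ⟨t, d⟩ := y
      have h2 : t + d.vec ∉ A := by
        intro h3
        have h4 := hyb.2
        rw [plane_glue, if_pos ⟨hyb.1, h3⟩] at h4
        exact Dir.opp_ne d (congrArg Prod.snd h4)
      exact (hout t hyb.1 d h2).resolve_left h1

end Win

/-! ### the four directions of a flat wall: no change of the bits -/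

namespace Dir

/-- rotation by 180 degrees -/
def half : Equiv.Perm Dir := ⟨opp, opp, opp_opp, opp_opp⟩

/-- reflection in the diagonal, `(i, j) ↦ (j, i)` -/
def tr : Dir → Dir
  | .E => .N | .N => .E | .W => .S | .S => .W

/-- reflection in the diagonal, `(i, j) ↦ (j, i)` -/
def trans : Equiv.Perm Dir := ⟨tr, tr, by intro d; cases d <;> rfl, by intro d; cases d <;> rfl⟩

/-- reflection in the other diagonal, `(i, j) ↦ (-j, -i)` -/
def antitr : Dir → Dir
  | .E => .S | .S => .E | .W => .N | .N => .W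

/-- reflection in the other diagonal, `(i, j) ↦ (-j, -i)` -/
def antitrans : Equiv.Perm Dir :=
  ⟨antitr, antitr, by intro d; cases d <;> rfl, by intro d; cases d <;> rfl⟩

lemma bit_refl (b : Bool) (d : Dir) : mt (xor false b) (Equiv.refl Dir d) = Equiv.refl Dir (mt b d) := by
  cases b <;> cases d <;> rfl

lemma bit_half (b : Bool) (d : Dir) : mt (xor false b) (half d) = half (mt b d) := by
  cases b <;> cases d <;> rfl

lemma bit_trans (b : Bool) (d : Dir) : mt (xor false b) (trans d) = trans (mt b d) := by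
  cases b <;> cases d <;> rfl

lemma bit_antitrans (b : Bool) (d : Dir) :
    mt (xor false b) (antitrans d) = antitrans (mt b d) := by
  cases b <;> cases d <;> rfl

end Dir

end Full
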